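import Pool.Agent.N141.Sing.Stalk3

/-!
The singular locus of the moduli space `M_d^N` of degree `d` endomorphisms of `ℙ^N`, `N ≥ 2`,
`d ≥ 2`, over an algebraically closed field of characteristic `0`, consists of the classes of the
maps with a nontrivial automorphism.
-/

namespace Pool.Agent.Results.MP_807a54_ag.SingularLocus

open Pool.Agent.Helper819.Dyn Pool.Agent.N141.Sing

/-- For `N ≥ 2` and `d ≥ 2` the point `[f]` of `M_d^N` is singular if and only if `Aut(f) ≠ 1`. -/
theorem result {k : Type} [Field k] [IsAlgClosed k] [CharZero k] {N d : ℕ} (hN : 2 ≤ N)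
    (hd : 2 ≤ d) (F : EndTuple k N d) : IsSingular (cls F) ↔ HasNontrivialAut F :=
  isSingular_iff hN hd F

end Pool.Agent.Results.MP_807a54_ag.SingularLocus
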